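import Pool.Agent.Helper19.HV.StC
import Pool.Agent.Helper91.PL.A2

/-!
# Project HV, module GNA: generators adapted to a point
-/

set_option autoImplicit false

open scoped TensorProduct

namespace Pool.Agent.Helper19.HV

noncomputable section

open PL

private theorem gna_poly {F : Type} [Field F] (a : F) (S : Submodule ℚ (V (RatFunc F)))
    (hE : lg (RatFunc.X - RatFunc.C a : RatFunc F) ∈ S)
    (hU : ∀ (u : RatFunc F) (c : F), UnitAt a u c → lg u ∈ S) (P : Polynomial F) (hP : P ≠ 0) :
    lg (algebraMap (Polynomial F) (RatFunc F) P) ∈ S := by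
  obtain ⟨Q, hQ, hd⟩ := Polynomial.exists_eq_pow_rootMultiplicity_mul_and_not_dvd P hP a
  have hX : algebraMap (Polynomial F) (RatFunc F) (Polynomial.X - Polynomial.C a) =
      RatFunc.X - RatFunc.C a := by
    rw [map_sub, RatFunc.algebraMap_X, RatFunc.algebraMap_C]
  have hev : Q.eval a ≠ 0 := fun h => hd (Polynomial.dvd_iff_isRoot.2 h)
  have hQ0 : Q ≠ 0 := by
    rintro rfl
    simp at hev
  have hQ' : algebraMap (Polynomial F) (RatFunc F) Q ≠ 0 :=
    (map_ne_zero_iff _ (RatFunc.algebraMap_injective F)).2 hQ0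
  have hX0 : (RatFunc.X - RatFunc.C a : RatFunc F) ≠ 0 := X_sub_ne a
  have hu : UnitAt a (algebraMap (Polynomial F) (RatFunc F) Q) (Q.eval a) := by
    refine ⟨?_, hev⟩
    have h := a2_some (a := a) (f := algebraMap (Polynomial F) (RatFunc F) Q) (P := Q) (Q := 1)
      (by rw [map_one, mul_one]) (by simp)
    simpa using h
  have e : algebraMap (Polynomial F) (RatFunc F) P =
      (RatFunc.X - RatFunc.C a) ^ (P.rootMultiplicity a) * algebraMap (Polynomial F) (RatFunc F) Q := by
    have h := congrArg (algebraMap (Polynomial F) (RatFunc F)) hQ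
    rwa [map_mul, map_pow, hX] at h
  rw [e, lg_mul (pow_ne_zero _ hX0) hQ']
  refine S.add_mem ?_ (hU _ _ hu)
  by_cases hn : P.rootMultiplicity a = 0
  · rw [hn, pow_zero, lg_one]
    exact S.zero_mem
  · rw [lg_pow _ _ hn]
    exact S.smul_mem _ hE

private theorem gna_top {F : Type} [Field F] (a : F) (S : Submodule ℚ (V (RatFunc F)))
    (hE : lg (RatFunc.X - RatFunc.C a : RatFunc F) ∈ S)
    (hU : ∀ (u : RatFunc F) (c : F), UnitAt a u c → lg u ∈ S) : S = ⊤ := by
  rw [eq_top_iff, ← span_lg, Submodule.span_le]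
  rintro _ ⟨f, rfl⟩
  by_cases hf : f = 0
  · rw [hf, lg_zero]
    exact S.zero_mem
  · have h1 : algebraMap (Polynomial F) (RatFunc F) f.num ≠ 0 :=
      (map_ne_zero_iff _ (RatFunc.algebraMap_injective F)).2 (RatFunc.num_ne_zero hf)
    have h2 : algebraMap (Polynomial F) (RatFunc F) f.denom ≠ 0 :=
      (map_ne_zero_iff _ (RatFunc.algebraMap_injective F)).2 f.denom_ne_zero
    rw [← RatFunc.num_div_denom f, lg_div' h1 h2]
    exact S.sub_mem (gna_poly a S hE hU _ (RatFunc.num_ne_zero hf)) (gna_poly a S hE hU _ f.denom_ne_zero)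

/-- module GNA -/
theorem mGNA : sGNA := by
  intro F N _ _ _ a j f g h0 h1
  have hkey : (f.compAlternatingMap (pr (RatFunc F) (j + 1)) :
      V (RatFunc F) [⋀^Fin (j + 1)]→ₗ[ℚ] N) = g.compAlternatingMap (pr (RatFunc F) (j + 1)) := by
    let S : Set (V (RatFunc F)) := {v | (∃ (u : RatFunc F) (c : F), UnitAt a u c ∧ v = lg u) ∨
      v = lg (RatFunc.X - RatFunc.C a)}
    obtain ⟨b, hbS, hbs, hbl⟩ := exists_linearIndependent ℚ S
    have htop : Submodule.span ℚ b = ⊤ := by
      rw [hbs]
      apply gna_top a
      · exact Submodule.subset_span (Or.inr rfl)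
      · exact fun u c hu => Submodule.subset_span (Or.inl ⟨u, c, hu, rfl⟩)
    let e : Module.Basis b ℚ (V (RatFunc F)) := Module.Basis.mk hbl (by
      rw [Subtype.range_coe]
      exact htop.ge)
    have he : ∀ i : b, e i = i.1 := fun i => Module.Basis.mk_apply hbl _ i
    refine Module.Basis.ext_alternating e ?_
    intro v hv
    simp only [he]
    by_cases hall : ∀ i, ∃ (u : RatFunc F) (c : F), UnitAt a u c ∧ (v i).1 = lg u
    · choose u c hu hvu using hall
      have h := h0 u c hu
      simp only [LinearMap.compAlternatingMap_apply]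
      have e1 : (fun i => ((v i).1 : V (RatFunc F))) = fun i => lg (u i) := funext hvu
      rw [e1]
      exact h
    · push Not at hall
      obtain ⟨i, hi⟩ := hall
      have hiE : (v i).1 = lg (RatFunc.X - RatFunc.C a) := by
        rcases hbS (v i).2 with ⟨u, c, hu, h⟩ | h
        · exact absurd h (hi u c hu)
        · exact h
      have hoth : ∀ k, k ≠ i → ∃ (u : RatFunc F) (c : F), UnitAt a u c ∧ (v k).1 = lg u := by
        intro k hk
        rcases hbS (v k).2 with h | h
        · exact h
        · exact absurd (hv (Subtype.ext (h.trans hiE.symm))) hk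
      let σ : Equiv.Perm (Fin (j + 1)) := Equiv.swap i (Fin.last j)
      have hσ : ∀ k : Fin j, σ k.castSucc ≠ i := by
        intro k h
        have h2 : σ (Fin.last j) = i := Equiv.swap_apply_right i (Fin.last j)
        exact (Fin.castSucc_lt_last k).ne (σ.injective (h.trans h2.symm))
      choose u c hu hvu using fun k : Fin j => hoth (σ k.castSucc) (hσ k)
      have h := h1 u c hu
      have e1 : (fun k => ((v k).1 : V (RatFunc F))) ∘ σ = Fin.snoc (α := fun _ => V (RatFunc F))
          (fun k => lg (u k)) (lg (RatFunc.X - RatFunc.C a)) := by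
        funext k
        refine Fin.lastCases ?_ (fun k => ?_) k
        · rw [Fin.snoc_last, Function.comp_apply]
          have h2 : σ (Fin.last j) = i := Equiv.swap_apply_right i (Fin.last j)
          rw [h2]
          exact hiE
        · rw [Fin.snoc_castSucc, Function.comp_apply]
          exact hvu k
      have hf := (f.compAlternatingMap (pr (RatFunc F) (j + 1))).map_perm
        (fun k => ((v k).1 : V (RatFunc F))) σ
      have hg := (g.compAlternatingMap (pr (RatFunc F) (j + 1))).map_perm
        (fun k => ((v k).1 : V (RatFunc F))) σ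
      rw [e1] at hf hg
      have h2 : Equiv.Perm.sign σ • (f.compAlternatingMap (pr (RatFunc F) (j + 1)))
          (fun k => ((v k).1 : V (RatFunc F))) = Equiv.Perm.sign σ •
          (g.compAlternatingMap (pr (RatFunc F) (j + 1))) (fun k => ((v k).1 : V (RatFunc F))) := by
        rw [← hf, ← hg]
        exact h
      exact smul_left_cancel _ h2
  apply wext
  intro v
  exact congrArg (fun A : V (RatFunc F) [⋀^Fin (j + 1)]→ₗ[ℚ] N => A v) hkey

end

end Pool.Agent.Helper19.HV
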